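import Mathlib

/-!
# A two-person pebble game on acyclic graphs with in-degree at most two

If the game on a graph needs `32 * 2 ^ k - 2` moves then the graph has at least `(k + 1) * 2 ^ k`
edges (Hopcroft, Paul and Valiant; Paterson and Valiant; Dymond and Tompa).
-/

set_option autoImplicit false

namespace Pool.Agent.T9h19

open Finset

/-- `DT pr W d P t`: the value of the vertex `t` can be found in `d` moves if the vertices in `P`
carry pebbles; the graph has the vertex set `W` and the edges from the elements of `pr v` to `v`. -/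
def DT (pr : ℕ → Finset ℕ) (W : Finset ℕ) : ℕ → Finset ℕ → ℕ → Prop
  | 0, P, t => t ∈ P ∨ pr t ∩ W ⊆ P
  | d + 1, P, t => DT pr W d P t ∨ ∃ v ∈ W, DT pr W d P v ∧ DT pr W d (insert v P) t

variable {pr : ℕ → Finset ℕ} {W : Finset ℕ}

lemma DT.succ {d : ℕ} {P : Finset ℕ} {t : ℕ} (h : DT pr W d P t) : DT pr W (d + 1) P t :=
  Or.inl h

lemma DT.move {d : ℕ} {P : Finset ℕ} {t v : ℕ} (hv : v ∈ W) (h1 : DT pr W d P v)
    (h2 : DT pr W d (insert v P) t) : DT pr W (d + 1) P t :=
  Or.inr ⟨v, hv, h1, h2⟩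

lemma DT.mono {d d' : ℕ} {P : Finset ℕ} {t : ℕ} (h : DT pr W d P t) (hd : d ≤ d') :
    DT pr W d' P t := by
  induction hd with
  | refl => exact h
  | step _ ih => exact ih.succ

lemma DT.peb {d : ℕ} : ∀ {P P' : Finset ℕ} {t : ℕ}, DT pr W d P t → P ⊆ P' →
    DT pr W d P' t := by
  induction d with
  | zero =>
    intro P P' t h hP
    rcases h with h | h
    · exact Or.inl (hP h)
    · exact Or.inr (h.trans hP)
  | succ d ih =>
    intro P P' t h hP
    rcases h with h | ⟨v, hv, h1, h2⟩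
    · exact Or.inl (ih h hP)
    · exact Or.inr ⟨v, hv, ih h1 hP, ih h2 (insert_subset_insert v hP)⟩

/-- pebble a set of vertices one by one -/
lemma DT.all {τ D : ℕ} (Q : Finset ℕ) : ∀ {P : Finset ℕ} {t : ℕ}, Q ⊆ W →
    (∀ u ∈ Q, DT pr W τ P u) → DT pr W D (P ∪ Q) t → DT pr W (Q.card + max τ D) P t := by
  classical
  induction Q using Finset.induction_on with
  | empty =>
    intro P t _ _ h
    rw [union_empty] at h
    exact h.mono (by simp)
  | insert u Q hu ih =>
    intro P t hQW hQ h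
    have h1 : DT pr W (Q.card + max τ D) (insert u P) t := by
      apply ih ((subset_insert u Q).trans hQW)
      · intro v hv
        exact (hQ v (mem_insert_of_mem hv)).peb (subset_insert u P)
      · apply h.peb
        intro v hv
        simp only [mem_union, mem_insert] at hv ⊢
        tauto
    rw [card_insert_of_notMem hu]
    have h2 : DT pr W (Q.card + max τ D) P u :=
      (hQ u (mem_insert_self u Q)).mono (by omega)
    exact (DT.move (hQW (mem_insert_self u Q)) h2 h1).mono (by omega)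

/-- pebble a closed set in increasing order -/
lemma DT.closed (Q : Finset ℕ) (hpr : ∀ v, ∀ u ∈ pr v, u < v) (hQW : Q ⊆ W)
    (hQ : ∀ u ∈ Q, pr u ∩ W ⊆ Q) :
    ∀ {e : ℕ} {P : Finset ℕ} {t : ℕ}, DT pr W e (P ∪ Q) t → DT pr W (Q.card + e) P t := by
  classical
  induction Q using Finset.induction_on_max with
  | empty =>
    intro e P t h
    rw [union_empty] at h
    simpa using h
  | insert m Q hm ih =>
    intro e P t h
    have hmQ : m ∉ Q := fun h' => lt_irrefl m (hm m h')
    have hcl : ∀ u ∈ Q, pr u ∩ W ⊆ Q := by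
      intro u hu v hv
      have h1 := hQ u (mem_insert_of_mem hu) hv
      rcases mem_insert.mp h1 with h2 | h2
      · exfalso
        have h3 := hpr u v (mem_inter.mp hv).1
        have h4 := hm u hu
        omega
      · exact h2
    have hm0 : DT pr W e (P ∪ Q) m := by
      have : DT pr W 0 (P ∪ Q) m := by
        refine Or.inr fun v hv => ?_
        have h1 := hQ m (mem_insert_self m Q) hv
        rcases mem_insert.mp h1 with h2 | h2
        · exfalso
          have h3 := hpr m v (mem_inter.mp hv).1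
          omega
        · exact mem_union_right _ h2
      exact this.mono (Nat.zero_le e)
    have h1 : DT pr W (e + 1) (P ∪ Q) t := by
      refine Or.inr ⟨m, hQW (mem_insert_self m Q), hm0, h.peb ?_⟩
      intro v hv
      simp only [mem_union, mem_insert] at hv ⊢
      tauto
    have h2 := ih ((subset_insert m Q).trans hQW) hcl h1
    rw [card_insert_of_notMem hmQ]
    exact h2.mono (by omega)

/-- the number of edges in `W` -/
def edg (pr : ℕ → Finset ℕ) (W : Finset ℕ) : ℕ := ∑ v ∈ W, (pr v ∩ W).card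

/-- the trivial bound -/
lemma DT.linear (hpr : ∀ v, ∀ u ∈ pr v, u < v) {t : ℕ} (ht : t ∈ W) :
    DT pr W (edg pr W) ∅ t := by
  classical
  set Q := W.filter (fun u => ∃ v ∈ W, u ∈ pr v) with hQdef
  have hQW : Q ⊆ W := filter_subset _ _
  have hcard : Q.card ≤ edg pr W := by
    have h1 : Q ⊆ W.biUnion (fun v => pr v ∩ W) := by
      intro u hu
      rw [hQdef, mem_filter] at hu
      obtain ⟨hu, v, hv, huv⟩ := hu
      exact mem_biUnion.mpr ⟨v, hv, mem_inter.mpr ⟨huv, hu⟩⟩
    exact (card_le_card h1).trans card_biUnion_le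
  have hcl : ∀ u ∈ W, pr u ∩ W ⊆ Q := by
    intro u hu v hv
    rw [hQdef, mem_filter]
    exact ⟨(mem_inter.mp hv).2, u, hu, (mem_inter.mp hv).1⟩
  have h0 : DT pr W 0 (∅ ∪ Q) t := by
    rw [empty_union]
    exact Or.inr (hcl t ht)
  have := DT.closed Q hpr hQW (fun u hu => hcl u (hQW hu)) h0
  exact this.mono (by omega)

/-- passing to a subgraph whose other in-neighbours carry pebbles -/
lemma DT.sub {W₂ P : Finset ℕ} (hW : W₂ ⊆ W) (hP : ∀ v ∈ W₂, pr v ∩ W ⊆ P ∪ W₂) {d : ℕ} :
    ∀ {Q : Finset ℕ} {t : ℕ}, DT pr W₂ d Q t → t ∈ W₂ → DT pr W d (P ∪ Q) t := by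
  classical
  induction d with
  | zero =>
    intro Q t h ht
    rcases h with h | h
    · exact Or.inl (mem_union_right _ h)
    · refine Or.inr fun v hv => ?_
      have h1 := hP t ht hv
      rcases mem_union.mp h1 with h2 | h2
      · exact mem_union_left _ h2
      · exact mem_union_right _ (h (mem_inter.mpr ⟨(mem_inter.mp hv).1, h2⟩))
  | succ d ih =>
    intro Q t h ht
    rcases h with h | ⟨v, hv, h1, h2⟩
    · exact Or.inl (ih h ht)
    · refine Or.inr ⟨v, hW hv, ih h1 hv, ?_⟩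
      have := ih h2 ht
      rwa [union_insert] at this

/-- composition -/
lemma DT.comp {W₂ : Finset ℕ} (hW : W₂ ⊆ W) (hpr2 : ∀ v ∈ W, (pr v).card ≤ 2) {τ : ℕ}
    (hτ : ∀ u ∈ W, u ∉ W₂ → DT pr W τ ∅ u) {d : ℕ} :
    ∀ {Q : Finset ℕ} {t : ℕ}, DT pr W₂ d Q t → t ∈ W₂ → DT pr W (d + 2 + τ) Q t := by
  classical
  induction d with
  | zero =>
    intro Q t h ht
    rcases h with h | h
    · exact (show DT pr W 0 Q t from Or.inl h).mono (by omega)
    · have h0 : DT pr W 0 (Q ∪ (pr t ∩ W).filter (fun u => u ∉ W₂)) t := by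
        refine Or.inr fun v hv => ?_
        by_cases hv2 : v ∈ W₂
        · exact mem_union_left _ (h (mem_inter.mpr ⟨(mem_inter.mp hv).1, hv2⟩))
        · exact mem_union_right _ (mem_filter.mpr ⟨hv, hv2⟩)
      have h1 := DT.all (τ := τ) (D := 0) ((pr t ∩ W).filter (fun u => u ∉ W₂)) (P := Q) (t := t)
        (fun u hu => (mem_inter.mp (mem_filter.mp hu).1).2)
        (fun u hu => (hτ u (mem_inter.mp (mem_filter.mp hu).1).2 (mem_filter.mp hu).2).peb
          (empty_subset Q)) h0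
      refine h1.mono ?_
      have h2 : ((pr t ∩ W).filter (fun u => u ∉ W₂)).card ≤ 2 :=
        (card_le_card ((filter_subset _ _).trans inter_subset_left)).trans (hpr2 t (hW ht))
      omega
  | succ d ih =>
    intro Q t h ht
    rcases h with h | ⟨v, hv, h1, h2⟩
    · exact (ih h ht).mono (by omega)
    · exact (DT.move (hW hv) (ih h1 hv) (ih h2 ht)).mono (by omega)

/-- initial segments -/
lemma DT.init (hpr : ∀ v, ∀ u ∈ pr v, u < v) (j : ℕ) {d : ℕ} :
    ∀ {Q : Finset ℕ} {t : ℕ}, DT pr (W.filter (fun v => v ≤ j)) d Q t → t ≤ j →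
      DT pr W d Q t := by
  classical
  induction d with
  | zero =>
    intro Q t h ht
    rcases h with h | h
    · exact Or.inl h
    · refine Or.inr fun v hv => h (mem_inter.mpr ⟨(mem_inter.mp hv).1, mem_filter.mpr
        ⟨(mem_inter.mp hv).2, ?_⟩⟩)
      exact (hpr t v (mem_inter.mp hv).1).le.trans ht
  | succ d ih =>
    intro Q t h ht
    rcases h with h | ⟨v, hv, h1, h2⟩
    · exact Or.inl (ih h ht)
    · exact Or.inr ⟨v, (mem_filter.mp hv).1, ih h1 (mem_filter.mp hv).2, ih h2 ht⟩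

/-- splitting the graph: the edges -/
lemma edg_split (hpr2 : ∀ v ∈ W, (pr v).card ≤ 2) {j : ℕ}
    (hj : j ∈ W) :
    edg pr (W.filter (fun v => v ≤ j)) + edg pr (W.filter (fun v => j ≤ v)) +
      (∑ v ∈ W.filter (fun v => j ≤ v), (pr v ∩ W.filter (fun u => u < j)).card) ≤
      edg pr W + 2 := by
  classical
  have e1 : edg pr (W.filter (fun v => v ≤ j)) ≤
      (∑ v ∈ W.filter (fun v => v < j), (pr v ∩ W).card) + 2 := by
    have hsplit : W.filter (fun v => v ≤ j) = insert j (W.filter (fun v => v < j)) := by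
      ext v
      simp only [mem_filter, mem_insert]
      constructor
      · rintro ⟨h1, h2⟩
        rcases h2.lt_or_eq with h3 | h3
        · exact Or.inr ⟨h1, h3⟩
        · exact Or.inl h3
      · rintro (h | ⟨h1, h2⟩)
        · exact ⟨h ▸ hj, h.le⟩
        · exact ⟨h1, h2.le⟩
    unfold edg
    rw [hsplit, sum_insert (by simp), ← hsplit]
    have h1 : (pr j ∩ W.filter (fun v => v ≤ j)).card ≤ 2 :=
      (card_le_card inter_subset_left).trans (hpr2 j hj)
    have h2 : ∑ v ∈ W.filter (fun v => v < j), (pr v ∩ W.filter (fun v => v ≤ j)).card ≤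
        ∑ v ∈ W.filter (fun v => v < j), (pr v ∩ W).card :=
      sum_le_sum fun v _ => card_le_card (inter_subset_inter le_rfl (filter_subset _ _))
    omega
  have e2 : edg pr (W.filter (fun v => j ≤ v)) +
      (∑ v ∈ W.filter (fun v => j ≤ v), (pr v ∩ W.filter (fun u => u < j)).card) =
      ∑ v ∈ W.filter (fun v => j ≤ v), (pr v ∩ W).card := by
    unfold edg
    rw [← sum_add_distrib]
    refine sum_congr rfl fun v _ => ?_
    rw [← card_union_of_disjoint]
    · congr 1
      rw [← inter_union_distrib_left]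
      congr 1
      ext u
      simp only [mem_union, mem_filter]
      constructor
      · rintro (h | h)
        · exact h.1
        · exact h.1
      · intro h
        rcases Nat.lt_or_ge u j with h1 | h1
        · exact Or.inr ⟨h, h1⟩
        · exact Or.inl ⟨h, h1⟩
    · rw [disjoint_left]
      intro u hu hu'
      have h1 := (mem_filter.mp (mem_inter.mp hu).2).2
      have h2 := (mem_filter.mp (mem_inter.mp hu').2).2
      omega
  have e3 : edg pr W = (∑ v ∈ W.filter (fun v => v < j), (pr v ∩ W).card) +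
      ∑ v ∈ W.filter (fun v => j ≤ v), (pr v ∩ W).card := by
    unfold edg
    rw [← sum_filter_add_sum_filter_not W (fun v => v < j)]
    congr 1
    refine sum_congr ?_ fun _ _ => rfl
    ext v
    simp
  omega

/-- One split: a threshold `τ`. -/
lemma DT.split (hpr : ∀ v, ∀ u ∈ pr v, u < v) (hpr2 : ∀ v ∈ W, (pr v).card ≤ 2)
    {τ θ d t : ℕ} (ht : t ∈ W) (hd : ¬ DT pr W d ∅ t) (hτ : τ + θ ≤ d) :
    ∃ W₁ W₂ : Finset ℕ, ∃ j c : ℕ, W₁ ⊆ W ∧ W₂ ⊆ W ∧ j ∈ W₁ ∧ ¬ DT pr W₁ τ ∅ j ∧ t ∈ W₂ ∧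
      edg pr W₁ + edg pr W₂ + c ≤ edg pr W + 2 ∧
      ((c ≤ θ ∧ ¬ DT pr W₂ (d - θ) ∅ t) ∨
        (θ < c ∧ ∀ d', d' + 2 + τ ≤ d → ¬ DT pr W₂ d' ∅ t)) := by
  classical
  have hex : ∃ j, j ∈ W ∧ ¬ DT pr W τ ∅ j :=
    ⟨t, ht, fun h => hd (h.mono (by omega))⟩
  obtain ⟨j, hj⟩ : ∃ j, j = Nat.find hex := ⟨_, rfl⟩
  have hj1 : j ∈ W ∧ ¬ DT pr W τ ∅ j := hj ▸ Nat.find_spec hex
  have hj2 : ∀ u ∈ W, u < j → DT pr W τ ∅ u := by
    intro u hu huj
    by_contra hc
    exact Nat.find_min hex (hj ▸ huj) ⟨hu, hc⟩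
  have htj : j ≤ t := by
    by_contra hc
    exact hd ((hj2 t ht (not_le.mp hc)).mono (by omega))
  set c := ∑ v ∈ W.filter (fun v => j ≤ v), (pr v ∩ W.filter (fun u => u < j)).card with hc
  refine ⟨W.filter (fun v => v ≤ j), W.filter (fun v => j ≤ v), j, c, filter_subset _ _,
    filter_subset _ _, mem_filter.mpr ⟨hj1.1, le_rfl⟩, fun h => hj1.2 (h.init hpr j le_rfl),
    mem_filter.mpr ⟨ht, htj⟩, edg_split hpr2 hj1.1, ?_⟩
  rcases Nat.lt_or_ge θ c with h | h
  · refine Or.inr ⟨h, fun d' hd' hDT => hd ?_⟩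
    have := DT.comp (W := W) (τ := τ) (filter_subset (fun v => j ≤ v) W) hpr2 (fun u hu hu2 => by
      apply hj2 u hu
      by_contra hc
      exact hu2 (mem_filter.mpr ⟨hu, not_lt.mp hc⟩)) hDT (mem_filter.mpr ⟨ht, htj⟩)
    exact this.mono hd'
  · refine Or.inl ⟨h, fun hDT => hd ?_⟩
    set P := (W.filter (fun v => j ≤ v)).biUnion (fun v => pr v ∩ W.filter (fun u => u < j))
      with hP
    have hPc : P.card ≤ c := card_biUnion_le
    have h1 := DT.sub (W := W) (P := P) (filter_subset (fun v => j ≤ v) W) (fun v hv u hu => by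
      rcases Nat.lt_or_ge u j with huj | huj
      · exact mem_union_left _ (mem_biUnion.mpr ⟨v, hv, mem_inter.mpr ⟨(mem_inter.mp hu).1,
          mem_filter.mpr ⟨(mem_inter.mp hu).2, huj⟩⟩⟩)
      · exact mem_union_right _ (mem_filter.mpr ⟨(mem_inter.mp hu).2, huj⟩)) hDT
        (mem_filter.mpr ⟨ht, htj⟩)
    rw [union_empty] at h1
    have h2 := DT.all (τ := τ) (D := d - θ) P (P := ∅) (t := t) (fun u hu => by
        obtain ⟨v, _, huv⟩ := mem_biUnion.mp hu
        exact (mem_filter.mp (mem_inter.mp huv).2).1) (fun u hu => by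
        obtain ⟨v, _, huv⟩ := mem_biUnion.mp hu
        have := mem_filter.mp (mem_inter.mp huv).2
        exact hj2 u this.1 this.2) (by rwa [empty_union])
    exact h2.mono (by omega)

/-- **Paterson and Valiant**: a graph on which the game needs `32 * 2 ^ k - 2` moves has at least
`(k + 1) * 2 ^ k` edges. -/
theorem DT.edges (hpr : ∀ v, ∀ u ∈ pr v, u < v) (k : ℕ) :
    ∀ W : Finset ℕ, (∀ v ∈ W, (pr v).card ≤ 2) → ∀ t ∈ W,
      ¬ DT pr W (32 * 2 ^ k - 2) ∅ t → (k + 1) * 2 ^ k ≤ edg pr W := by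
  induction k using Nat.strong_induction_on with
  | _ k ih =>
    intro W hpr2 t ht hd
    have hp : 1 ≤ 2 ^ k := Nat.one_le_two_pow
    by_cases hk : k ≤ 30
    · -- the trivial bound
      have h1 : ¬ edg pr W ≤ 32 * 2 ^ k - 2 := fun h => hd ((DT.linear hpr ht).mono h)
      have h2 : (k + 1) * 2 ^ k ≤ 31 * 2 ^ k := Nat.mul_le_mul_right _ (by omega)
      omega
    · obtain ⟨l, rfl⟩ : ∃ l, k = l + 2 := ⟨k - 2, by omega⟩
      obtain ⟨p, hpdef⟩ : ∃ p, p = 2 ^ l := ⟨_, rfl⟩
      have hp1 : 1 ≤ p := hpdef ▸ Nat.one_le_two_pow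
      have e1 : 2 ^ (l + 1) = 2 * p := by rw [hpdef]; ring
      have e2 : 2 ^ (l + 2) = 4 * p := by rw [hpdef]; ring
      have ih1 := ih (l + 1) (by omega)
      have ih0 := ih l (by omega)
      rw [e1] at ih1
      rw [← hpdef] at ih0
      rw [e2] at hd ⊢
      -- the first split
      obtain ⟨W₁, W₂, j, c, hW1, hW2, hj, hj', ht2, he, hcase⟩ :=
        DT.split hpr hpr2 (τ := 32 * (2 * p) - 2) (θ := 4 * p + 1) ht hd (by omega)
      have h1 := ih1 W₁ (fun v hv => hpr2 v (hW1 hv)) j hj hj'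
      rcases hcase with ⟨hc, hd2⟩ | ⟨hc, hd2⟩
      · -- the second split
        obtain ⟨W₃, W₄, j', c', hW3, hW4, hj3, hj3', ht4, he', hcase'⟩ :=
          DT.split hpr (fun v hv => hpr2 v (hW2 hv)) (τ := 32 * (2 * p) - 2) (θ := 4 * p + 1)
            ht2 hd2 (by omega)
        have h3 := ih1 W₃ (fun v hv => hpr2 v (hW2 (hW3 hv))) j' hj3 hj3'
        have h4 : (l + 1) * p ≤ edg pr W₄ := by
          apply ih0 W₄ (fun v hv => hpr2 v (hW2 (hW4 hv))) t ht4
          rcases hcase' with ⟨_, hd4⟩ | ⟨_, hd4⟩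
          · exact fun h => hd4 (h.mono (by omega))
          · exact hd4 _ (by omega)
        have hl : 29 ≤ l := by omega
        nlinarith
      · have h2 := ih1 W₂ (fun v hv => hpr2 v (hW2 hv)) t ht2 (hd2 _ (by omega))
        nlinarith

end Pool.Agent.T9h19
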