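import Mathlib
import Pool.Agent.H540R2.Build
import Pool.Agent.T9h19.Peb

/-!
# Systems of functions: the pebble game gives formulas of small depth
-/

set_option autoImplicit false

namespace Pool.Agent.T9h19

open Finset Pool.Agent.H540R2

variable {n : ℕ}

/-- The values when the vertices in `P` are overwritten by `a`. -/
def ov (G : ℕ → (ℕ → Bool) → BF n) (P : Finset ℕ) (a : ℕ → Bool) (x : Fin n → Bool) : ℕ → Bool
  | i => if i ∈ P then a i else G i (fun j => if _h : j < i then ov G P a x j else false) x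
termination_by i => i

variable {G : ℕ → (ℕ → Bool) → BF n} {pr : ℕ → Finset ℕ} {W : Finset ℕ}

lemma ov_mem {P : Finset ℕ} {a : ℕ → Bool} {x : Fin n → Bool} {i : ℕ} (hi : i ∈ P) :
    ov G P a x i = a i := by
  rw [ov, if_pos hi]

lemma ov_gate (hpr : ∀ v, ∀ u ∈ pr v, u < v)
    (hG : ∀ v ∈ W, ∀ a a' : ℕ → Bool, (∀ u ∈ pr v, a u = a' u) → G v a = G v a')
    {P : Finset ℕ} {a : ℕ → Bool} {x : Fin n → Bool} {i : ℕ} (hi : i ∉ P) (hW : i ∈ W) :
    ov G P a x i = G i (ov G P a x) x := by
  rw [ov, if_neg hi]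
  rw [hG i hW _ (ov G P a x)]
  intro u hu
  simp [hpr i u hu]

lemma ov_insert (hpr : ∀ v, ∀ u ∈ pr v, u < v)
    (hG : ∀ v ∈ W, ∀ a a' : ℕ → Bool, (∀ u ∈ pr v, a u = a' u) → G v a = G v a')
    (hsub : ∀ v ∈ W, pr v ⊆ W)
    {P : Finset ℕ} {a : ℕ → Bool} {x : Fin n → Bool} {v : ℕ} {b : Bool}
    (hv : ov G P a x v = b) :
    ∀ i ∈ W, ov G (insert v P) (Function.update a v b) x i = ov G P a x i := by
  intro i
  induction i using Nat.strong_induction_on with
  | _ i ih =>
    intro hi
    by_cases h1 : i = v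
    · subst h1
      rw [ov_mem (mem_insert_self i P), Function.update_self, hv]
    · by_cases h2 : i ∈ P
      · rw [ov_mem (mem_insert_of_mem h2), ov_mem h2, Function.update_of_ne h1]
      · rw [ov_gate hpr hG (by simp [h1, h2]) hi, ov_gate hpr hG h2 hi]
        rw [hG i hi _ (ov G P a x)]
        intro u hu
        exact ih u (hpr i u hu) (hsub i hi hu)

/-- from the pebble game to formulas -/
theorem DT.dp (hpr : ∀ v, ∀ u ∈ pr v, u < v)
    (hG : ∀ v ∈ W, ∀ a a' : ℕ → Bool, (∀ u ∈ pr v, a u = a' u) → G v a = G v a')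
    (hsub : ∀ v ∈ W, pr v ⊆ W) {δ : ℕ} (hδ : ∀ v ∈ W, ∀ a, Dp (G v a) δ) {d : ℕ} :
    ∀ {P : Finset ℕ} {t : ℕ}, DT pr W d P t → t ∈ W → ∀ a : ℕ → Bool,
      Dp (fun x => ov G P a x t) (δ + 2 * d) := by
  induction d with
  | zero =>
    intro P t h ht a
    by_cases htP : t ∈ P
    · exact (Dp.const (a t) _).congr fun x => (ov_mem htP).symm
    · rcases h with h | h
      · exact absurd h htP
      · refine ((hδ t ht a).mono (by omega)).congr fun x => ?_
        rw [ov_gate hpr hG htP ht, hG t ht (ov G P a x) a]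
        intro u hu
        exact ov_mem (h (mem_inter.mpr ⟨hu, hsub t ht hu⟩))
  | succ d ih =>
    intro P t h ht a
    rcases h with h | ⟨v, hv, h1, h2⟩
    · exact (ih h ht a).mono (by omega)
    · have m := Dp.mux (ih h1 hv a) (ih h2 ht (Function.update a v true))
        (ih h2 ht (Function.update a v false))
      refine (m.mono (by omega)).congr fun x => ?_
      by_cases hb : ov G P a x v = true
      · rw [if_pos hb]
        exact ov_insert hpr hG hsub hb t ht
      · rw [if_neg hb]
        exact ov_insert hpr hG hsub (Bool.eq_false_iff.mpr hb) t ht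

/-- **Systems with few vertices.** The functions `val v`, `v ∈ W`, satisfy `val v = G v val`, where
`G v` depends on at most two earlier functions and has depth at most `δ` otherwise. -/
theorem Dp.sys (hpr : ∀ v, ∀ u ∈ pr v, u < v)
    (hG : ∀ v ∈ W, ∀ a a' : ℕ → Bool, (∀ u ∈ pr v, a u = a' u) → G v a = G v a')
    (hsub : ∀ v ∈ W, pr v ⊆ W) {δ : ℕ} (hδ : ∀ v ∈ W, ∀ a, Dp (G v a) δ)
    (hpr2 : ∀ v ∈ W, (pr v).card ≤ 2) (val : ℕ → BF n)
    (hval : ∀ v ∈ W, ∀ x, val v x = G v (fun u => val u x) x)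
    {k : ℕ} (hk : 2 * W.card < (k + 1) * 2 ^ k) {t : ℕ} (ht : t ∈ W) :
    Dp (val t) (δ + 64 * 2 ^ k) := by
  have h1 : DT pr W (32 * 2 ^ k - 2) ∅ t := by
    by_contra hc
    have h2 := DT.edges hpr k W hpr2 t ht hc
    have h3 : edg pr W ≤ 2 * W.card := by
      unfold edg
      calc ∑ v ∈ W, (pr v ∩ W).card ≤ ∑ _v ∈ W, 2 :=
            sum_le_sum fun v hv => (card_le_card inter_subset_left).trans (hpr2 v hv)
        _ = 2 * W.card := by rw [sum_const, smul_eq_mul, mul_comm]
    omega
  have h2 := h1.dp hpr hG hsub hδ ht (fun _ => false)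
  refine (h2.mono ?_).congr fun x => ?_
  · omega
  · have key : ∀ i ∈ W, ov G ∅ (fun _ => false) x i = val i x := by
      intro i
      induction i using Nat.strong_induction_on with
      | _ i ih =>
        intro hi
        rw [ov_gate hpr hG (by simp) hi, hval i hi x]
        rw [hG i hi _ (fun u => val u x)]
        intro u hu
        exact ih u (hpr i u hu) (hsub i hi hu)
    exact key t ht

/-- Systems with few vertices, without a condition on the number of in-neighbours. -/
theorem Dp.sys_linear (hpr : ∀ v, ∀ u ∈ pr v, u < v)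
    (hG : ∀ v ∈ W, ∀ a a' : ℕ → Bool, (∀ u ∈ pr v, a u = a' u) → G v a = G v a')
    (hsub : ∀ v ∈ W, pr v ⊆ W) {δ : ℕ} (hδ : ∀ v ∈ W, ∀ a, Dp (G v a) δ) (val : ℕ → BF n)
    (hval : ∀ v ∈ W, ∀ x, val v x = G v (fun u => val u x) x)
    {t : ℕ} (ht : t ∈ W) :
    Dp (val t) (δ + 2 * W.card) := by
  classical
  have h1 : DT pr W W.card ∅ t := by
    have h0 : DT pr W 0 (∅ ∪ W) t := by
      rw [empty_union]
      exact Or.inr inter_subset_right
    exact (DT.closed W hpr le_rfl (fun u _ => inter_subset_right) h0).mono (by omega)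
  have h2 := h1.dp hpr hG hsub hδ ht (fun _ => false)
  refine h2.congr fun x => ?_
  have key : ∀ i ∈ W, ov G ∅ (fun _ => false) x i = val i x := by
    intro i
    induction i using Nat.strong_induction_on with
    | _ i ih =>
      intro hi
      rw [ov_gate hpr hG (by simp) hi, hval i hi x]
      rw [hG i hi _ (fun u => val u x)]
      intro u hu
      exact ih u (hpr i u hu) (hsub i hi hu)
  exact key t ht

end Pool.Agent.T9h19
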