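import Mathlib
import Pool.Agent.T9h19.Sys

/-!
# Extracting a small system from a circuit with few wires of shared gates
-/

set_option autoImplicit false

namespace Pool.Agent.T9h19

open Finset Pool.Agent.H540R2

variable {n : ℕ}

/-! ### from depth to formula size -/

lemma fm_sz_lt (F : Fm n) : F.sz < 2 ^ F.depth := by
  induction F with
  | lit i b => simp [Fm.sz, Fm.depth]
  | const b => simp [Fm.sz, Fm.depth]
  | and F G hF hG =>
    have h1 : 2 ^ F.depth ≤ 2 ^ max F.depth G.depth :=
      Nat.pow_le_pow_right (by norm_num) (le_max_left _ _)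
    have h2 : 2 ^ G.depth ≤ 2 ^ max F.depth G.depth :=
      Nat.pow_le_pow_right (by norm_num) (le_max_right _ _)
    simp only [Fm.sz, Fm.depth, pow_succ]
    omega
  | or F G hF hG =>
    have h1 : 2 ^ F.depth ≤ 2 ^ max F.depth G.depth :=
      Nat.pow_le_pow_right (by norm_num) (le_max_left _ _)
    have h2 : 2 ^ G.depth ≤ 2 ^ max F.depth G.depth :=
      Nat.pow_le_pow_right (by norm_num) (le_max_right _ _)
    simp only [Fm.sz, Fm.depth, pow_succ]
    omega

lemma Dp.sz {f : BF n} {d : ℕ} (h : Dp f d) : Sz f (2 ^ d) := by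
  obtain ⟨F, h1, h2⟩ := h
  exact ⟨F, (fm_sz_lt F).le.trans (Nat.pow_le_pow_right (by norm_num) h1), h2⟩

/-- unfolding a circuit of small depth -/
lemma Circuit.dp (C : Circuit n) {d : ℕ} (hd : C.depth ≤ d) : Dp C.eval d := by
  have hn : ∀ a : Node n, (∀ j, a.wires j ≠ 0 → Dp (fun x => C.val x j) (C.gateDepth j)) →
      Dp (fun x => a.eval x (C.val x)) (a.depth C.gateDepth) := by
    intro a ha
    cases a with
    | var i => exact Dp.var i _
    | const b => exact Dp.const b _
    | gate j => exact ha j (by simp [Node.wires])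
  have hg : ∀ i, i < C.size → Dp (fun x => C.val x i) (C.gateDepth i) := by
    intro i
    induction i using Nat.strong_induction_on with
    | _ i ih =>
      intro hi
      have hlt := C.gate_lt i hi
      have e1 : (fun x => C.val x i) = fun x => (C.gate i).eval x (C.val x) := by
        funext x
        exact C.val_gate hi x
      rw [e1, C.gateDepth_gate hi]
      cases hgi : C.gate i with
      | and a b =>
        rw [hgi] at hlt
        have h1 := hn a fun j hj => ih j (hlt j (by simp only [Gate.wires]; omega))
          ((hlt j (by simp only [Gate.wires]; omega)).trans hi)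
        have h2 := hn b fun j hj => ih j (hlt j (by simp only [Gate.wires]; omega))
          ((hlt j (by simp only [Gate.wires]; omega)).trans hi)
        exact (h1.mono (le_max_left _ _)).and (h2.mono (le_max_right _ _))
      | or a b =>
        rw [hgi] at hlt
        have h1 := hn a fun j hj => ih j (hlt j (by simp only [Gate.wires]; omega))
          ((hlt j (by simp only [Gate.wires]; omega)).trans hi)
        have h2 := hn b fun j hj => ih j (hlt j (by simp only [Gate.wires]; omega))
          ((hlt j (by simp only [Gate.wires]; omega)).trans hi)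
        exact (h1.mono (le_max_left _ _)).or (h2.mono (le_max_right _ _))
      | not a =>
        rw [hgi] at hlt
        have h1 := hn a fun j hj => ih j (hlt j hj) ((hlt j hj).trans hi)
        exact h1.not.mono (Nat.le_succ _)
  exact (hn C.out fun j hj => hg j (C.out_lt j hj)).mono hd

/-! ### representations over the functions of a set of vertices -/

/-- `f` is a function of the variables and of at most `m` of the functions `val u`, `u ∈ W`,
`u < t`, and it has formulas of size at most `s` when the latter values are fixed. -/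
def Rep (val : ℕ → BF n) (W : Finset ℕ) (t m : ℕ) (f : BF n) (s : ℕ) : Prop :=
  ∃ p : Finset ℕ, p ⊆ W ∧ (∀ u ∈ p, u < t) ∧ p.card ≤ m ∧ ∃ G : (ℕ → Bool) → BF n,
    (∀ a a' : ℕ → Bool, (∀ u ∈ p, a u = a' u) → G a = G a') ∧ (∀ a, Sz (G a) s) ∧
    ∀ x, f x = G (fun u => val u x) x

section Rep

variable {val : ℕ → BF n} {W : Finset ℕ} {t m : ℕ} {f : BF n} {s : ℕ}

lemma Rep.mono {W' : Finset ℕ} {t' m' s' : ℕ} (h : Rep val W t m f s) (hW : W ⊆ W')
    (ht : t ≤ t') (hm : m ≤ m') (hs : s ≤ s') : Rep val W' t' m' f s' := by
  obtain ⟨p, h1, h2, h3, G, h4, h5, h6⟩ := h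
  exact ⟨p, h1.trans hW, fun u hu => (h2 u hu).trans_le ht, h3.trans hm, G, h4,
    fun a => (h5 a).mono hs, h6⟩

lemma Rep.congr {g : BF n} (h : Rep val W t m f s) (hg : ∀ x, f x = g x) :
    Rep val W t m g s := by
  obtain ⟨p, h1, h2, h3, G, h4, h5, h6⟩ := h
  exact ⟨p, h1, h2, h3, G, h4, h5, fun x => (hg x).symm.trans (h6 x)⟩

lemma Rep.pure (h : Sz f s) : Rep val W t 0 f s :=
  ⟨∅, empty_subset _, by simp, by simp, fun _ => f, fun _ _ _ => rfl, fun _ => h, fun _ => rfl⟩

lemma Rep.self (hW : t ∈ W) : Rep val W (t + 1) 1 (val t) 0 :=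
  ⟨{t}, singleton_subset_iff.mpr hW, by simp, by simp, fun a _ => a t,
    fun a a' h => funext fun _ => h t (mem_singleton_self t), fun a => Sz.const _ _,
    fun _ => rfl⟩

lemma Rep.not (h : Rep val W t m f s) : Rep val W t m (fun x => !(f x)) s := by
  obtain ⟨p, h1, h2, h3, G, h4, h5, h6⟩ := h
  refine ⟨p, h1, h2, h3, fun a x => !(G a x), fun a a' haa => ?_, fun a => (h5 a).not,
    fun x => by simp only [h6 x]⟩
  simp only [h4 a a' haa]

lemma Rep.bin (op : Bool → Bool → Bool)
    (hop : ∀ (f g : BF n) (a b : ℕ), Sz f a → Sz g b → Sz (fun x => op (f x) (g x)) (a + b + 1))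
    {m' : ℕ} {g : BF n} {s' : ℕ} (hf : Rep val W t m f s) (hg : Rep val W t m' g s') :
    Rep val W t (m + m') (fun x => op (f x) (g x)) (s + s' + 1) := by
  classical
  obtain ⟨p, h1, h2, h3, G, h4, h5, h6⟩ := hf
  obtain ⟨p', h1', h2', h3', G', h4', h5', h6'⟩ := hg
  refine ⟨p ∪ p', union_subset h1 h1', ?_, (card_union_le _ _).trans (by omega),
    fun a x => op (G a x) (G' a x), fun a a' haa => ?_, fun a => hop _ _ _ _ (h5 a) (h5' a),
    fun x => by simp only [h6 x, h6' x]⟩
  · intro u hu
    rcases mem_union.mp hu with h | h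
    · exact h2 u h
    · exact h2' u h
  · simp only [h4 a a' fun u hu => haa u (mem_union_left _ hu),
      h4' a a' fun u hu => haa u (mem_union_right _ hu)]

end Rep

/-! ### operands and gates -/

section gates

variable {F : ℕ → BF n} {R W Act : Finset ℕ} {sz : ℕ → ℕ} {B t : ℕ}

/-- the representation of an operand -/
lemma Rep.node (hR : ∀ j ∈ R, j < t → Sz (F j) B)
    (hrep : ∀ j < t, j ∉ R → Rep F W t (if j ∈ Act then 1 else 0) (F j) (sz j))
    (a : Node n) (ha : ∀ j, a.wires j ≠ 0 → j < t) :
    Rep F W t (∑ j ∈ Act, a.wires j) (fun x => a.eval x (fun j => F j x))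
      (B + ∑ j ∈ (range t).filter (fun j => j ∉ R), sz j * a.wires j) := by
  classical
  cases a with
  | var i => exact (Rep.pure (Sz.var i 0)).mono le_rfl le_rfl (Nat.zero_le _) (Nat.zero_le _)
  | const b => exact (Rep.pure (Sz.const b 0)).mono le_rfl le_rfl (Nat.zero_le _) (Nat.zero_le _)
  | gate j =>
    have hj : j < t := ha j (by simp [Node.wires])
    have e1 : ∑ i ∈ Act, (Node.gate j : Node n).wires i = if j ∈ Act then 1 else 0 := by
      simp [Node.wires]
    rw [e1]
    by_cases hjA : j ∈ R
    · exact (Rep.pure (hR j hjA hj)).mono le_rfl le_rfl (Nat.zero_le _) (by omega)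
    · have h1 := hrep j hj hjA
      refine h1.mono le_rfl le_rfl le_rfl ?_
      have h2 : sz j * (Node.gate j : Node n).wires j ≤
          ∑ j' ∈ (range t).filter (fun j => j ∉ R), sz j' * (Node.gate j : Node n).wires j' :=
        single_le_sum (f := fun j' => sz j' * (Node.gate j : Node n).wires j')
          (fun _ _ => Nat.zero_le _) (mem_filter.mpr ⟨mem_range.mpr hj, hjA⟩)
      have h3 : sz j * (Node.gate j : Node n).wires j = sz j := by simp [Node.wires]
      omega

/-- the representation of a gate -/
lemma Rep.gate (hR : ∀ j ∈ R, j < t → Sz (F j) B)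
    (hrep : ∀ j < t, j ∉ R → Rep F W t (if j ∈ Act then 1 else 0) (F j) (sz j))
    (g : Gate n) (hlt : ∀ j, g.wires j ≠ 0 → j < t) :
    Rep F W t (∑ j ∈ Act, g.wires j) (fun x => g.eval x (fun j => F j x))
      (2 * B + 1 + ∑ j ∈ (range t).filter (fun j => j ∉ R), sz j * g.wires j) := by
  classical
  cases g with
  | and a b =>
    have h1 := Rep.node hR hrep a (fun j hj => hlt j (by simp only [Gate.wires]; omega))
    have h2 := Rep.node hR hrep b (fun j hj => hlt j (by simp only [Gate.wires]; omega))
    have h3 := h1.bin (fun u v => u && v) (fun f g a b hf hg => hf.and hg) h2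
    refine (h3.congr fun x => ?_).mono le_rfl le_rfl ?_ ?_
    · rfl
    · simp only [Gate.wires, sum_add_distrib]; exact le_rfl
    · simp only [Gate.wires, mul_add, sum_add_distrib]; omega
  | or a b =>
    have h1 := Rep.node hR hrep a (fun j hj => hlt j (by simp only [Gate.wires]; omega))
    have h2 := Rep.node hR hrep b (fun j hj => hlt j (by simp only [Gate.wires]; omega))
    have h3 := h1.bin (fun u v => u || v) (fun f g a b hf hg => hf.or hg) h2
    refine (h3.congr fun x => ?_).mono le_rfl le_rfl ?_ ?_
    · rfl
    · simp only [Gate.wires, sum_add_distrib]; exact le_rfl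
    · simp only [Gate.wires, mul_add, sum_add_distrib]; omega
  | not a =>
    have h1 := (Rep.node hR hrep a (fun j hj => hlt j hj)).not
    refine (h1.congr fun x => ?_).mono le_rfl le_rfl le_rfl ?_
    · rfl
    · simp only [Gate.wires]; omega

lemma node_wires_le (a : Node n) (Act : Finset ℕ) : ∑ j ∈ Act, a.wires j ≤ 1 := by
  classical
  cases a with
  | var i => simp [Node.wires]
  | const b => simp [Node.wires]
  | gate k =>
    simp only [Node.wires, sum_ite_eq]
    split_ifs <;> simp

lemma gate_wires_le (g : Gate n) (Act : Finset ℕ) : ∑ j ∈ Act, g.wires j ≤ 2 := by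
  cases g with
  | and a b =>
    simp only [Gate.wires, sum_add_distrib]
    have := node_wires_le a Act
    have := node_wires_le b Act
    omega
  | or a b =>
    simp only [Gate.wires, sum_add_distrib]
    have := node_wires_le a Act
    have := node_wires_le b Act
    omega
  | not a =>
    simp only [Gate.wires]
    have := node_wires_le a Act
    omega

lemma wsum_node_le (a : Node n) (T : Finset ℕ) {M : ℕ} (h : ∀ j ∈ T, sz j ≤ M) :
    ∑ j ∈ T, sz j * a.wires j ≤ M := by
  calc ∑ j ∈ T, sz j * a.wires j ≤ ∑ j ∈ T, M * a.wires j :=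
        sum_le_sum fun j hj => Nat.mul_le_mul_right _ (h j hj)
    _ = M * ∑ j ∈ T, a.wires j := by rw [mul_sum]
    _ ≤ M * 1 := Nat.mul_le_mul_left _ (node_wires_le a T)
    _ = M := mul_one M

lemma wsum_gate_le (g : Gate n) (T : Finset ℕ) {M : ℕ} (h : ∀ j ∈ T, sz j ≤ M) :
    ∑ j ∈ T, sz j * g.wires j ≤ 2 * M := by
  calc ∑ j ∈ T, sz j * g.wires j ≤ ∑ j ∈ T, M * g.wires j :=
        sum_le_sum fun j hj => Nat.mul_le_mul_right _ (h j hj)
    _ = M * ∑ j ∈ T, g.wires j := by rw [mul_sum]
    _ ≤ M * 2 := Nat.mul_le_mul_left _ (gate_wires_le g T)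
    _ = 2 * M := mul_comm _ _

end gates

/-- the number of wires from gate `j` to the gates outside `R` with numbers at least `t` -/
def rem (C : Circuit n) (R : Finset ℕ) (t j : ℕ) : ℕ :=
  ∑ i ∈ (Finset.Ico t C.size).filter (fun i => i ∉ R), (C.gate i).wires j

/-- the number of wires from gate `j` to gates outside `R` -/
def fanoutDel (C : Circuit n) (R : Finset ℕ) (j : ℕ) : ℕ :=
  ∑ i ∈ (Finset.range C.size).filter (fun i => i ∉ R), (C.gate i).wires j

/-- the fan-out excess after deletion of the gates in `R` -/
def excessDel (C : Circuit n) (R : Finset ℕ) : ℕ :=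
  ∑ j ∈ (Finset.range C.size).filter (fun j => j ∉ R), (fanoutDel C R j - 1)

lemma rem_mem (C : Circuit n) {R : Finset ℕ} {t : ℕ} (ht : t < C.size) (htR : t ∈ R) (j : ℕ) :
    rem C R t j = rem C R (t + 1) j := by
  classical
  unfold rem
  have e : Finset.Ico t C.size = insert t (Finset.Ico (t + 1) C.size) := by
    ext i; simp only [mem_Ico, mem_insert]; omega
  rw [e, filter_insert, if_neg (by simpa using htR)]

lemma rem_succ (C : Circuit n) {R : Finset ℕ} {t : ℕ} (ht : t < C.size) (htR : t ∉ R) (j : ℕ) :
    rem C R t j = (C.gate t).wires j + rem C R (t + 1) j := by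
  classical
  unfold rem
  have e : Finset.Ico t C.size = insert t (Finset.Ico (t + 1) C.size) := by
    ext i; simp only [mem_Ico, mem_insert]; omega
  rw [e, filter_insert, if_pos htR, sum_insert (by simp)]

lemma rem_self (C : Circuit n) (R : Finset ℕ) (t : ℕ) : rem C R (t + 1) t ≤ fanoutDel C R t := by
  unfold rem fanoutDel
  rw [range_eq_Ico]
  exact sum_le_sum_of_subset (filter_subset_filter _ (Ico_subset_Ico (Nat.zero_le _) le_rfl))

/-- **The invariant.** -/
lemma extract (C : Circuit n) (R : Finset ℕ) (F : ℕ → BF n) (B : ℕ)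
    (hR : ∀ j ∈ R, j < C.size → Sz (F j) B)
    (hF : ∀ t < C.size, t ∉ R → ∀ x, F t x = (C.gate t).eval x (fun j => F j x)) :
    ∀ t ≤ C.size, ∃ (W Act : Finset ℕ) (sz : ℕ → ℕ), W ⊆ range t ∧ Act ⊆ range t ∧
      (∀ j < t, j ∉ R → Rep F W t (if j ∈ Act then 1 else 0) (F j) (sz j)) ∧
      (∀ j < t, j ∉ R → sz j ≤ (2 * B + 1) * t) ∧
      (∀ i ∈ W, Rep F W i 2 (F i) ((2 * B + 1) * t)) ∧
      (∑ j ∈ (range t).filter (fun j => j ∉ R), sz j * rem C R t j) ≤ (2 * B + 1) * t ∧
      W.card + (∑ j ∈ Act, rem C R t j) ≤
        3 * ∑ j ∈ (range t).filter (fun j => j ∉ R), (fanoutDel C R j - 1) := by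
  classical
  intro t
  induction t with
  | zero =>
    intro _
    exact ⟨∅, ∅, fun _ => 0, by simp, by simp, by simp, by simp, by simp, by simp, by simp⟩
  | succ t ih =>
    intro ht
    obtain ⟨W, Act, sz, hW, hAct, h1, h2, h3, h4, h5⟩ := ih (by omega)
    have htS : t < C.size := by omega
    have htA' : t ∉ (range t).filter (fun j => j ∉ R) := by simp
    have htAct : t ∉ Act := fun h => by simpa using hAct h
    have htW : t ∉ W := fun h => by simpa using hW h
    have hmul : (2 * B + 1) * (t + 1) = (2 * B + 1) * t + (2 * B + 1) := by ring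
    by_cases htA : t ∈ R
    · -- a gate of `R`
      have er : (range (t + 1)).filter (fun j => j ∉ R) = (range t).filter (fun j => j ∉ R) := by
        rw [range_add_one, filter_insert, if_neg (by simpa using htA)]
      have e4 : (∑ j ∈ (range t).filter (fun j => j ∉ R), sz j * rem C R (t + 1) j) =
          ∑ j ∈ (range t).filter (fun j => j ∉ R), sz j * rem C R t j :=
        sum_congr rfl fun j _ => by rw [rem_mem C htS htA]
      have e5 : (∑ j ∈ Act, rem C R (t + 1) j) = ∑ j ∈ Act, rem C R t j :=
        sum_congr rfl fun j _ => by rw [rem_mem C htS htA]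
      have hcas : ∀ j, j < t + 1 → j ∉ R → j < t := by
        intro j hj hjA
        rcases Nat.lt_succ_iff_lt_or_eq.mp hj with h | h
        · exact h
        · exact absurd (h ▸ htA) hjA
      refine ⟨W, Act, sz, hW.trans (range_mono (by omega)), hAct.trans (range_mono (by omega)),
        ?_, ?_, ?_, ?_, ?_⟩
      · intro j hj hjA
        exact (h1 j (hcas j hj hjA) hjA).mono le_rfl (by omega) le_rfl le_rfl
      · intro j hj hjA
        have := h2 j (hcas j hj hjA) hjA
        omega
      · intro i hi
        exact (h3 i hi).mono le_rfl le_rfl le_rfl (by omega)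
      · rw [er, e4]; omega
      · rw [er, e5]; omega
    · have hg0 := Rep.gate (W := W) (Act := Act) (sz := sz) (B := B)
        (fun j hj hjt => hR j hj (by omega)) h1 (C.gate t) (C.gate_lt t htS)
      have hg := hg0.congr fun x => (hF t htS htA x).symm
      clear hg0
      set M := ∑ j ∈ Act, (C.gate t).wires j with hM
      have hM2 : M ≤ 2 := gate_wires_le _ _
      set σ := ∑ j ∈ (range t).filter (fun j => j ∉ R), sz j * (C.gate t).wires j with hσ
      -- the sums over the earlier gates
      have e4 : (∑ j ∈ (range t).filter (fun j => j ∉ R), sz j * rem C R t j) =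
          σ + ∑ j ∈ (range t).filter (fun j => j ∉ R), sz j * rem C R (t + 1) j := by
        rw [hσ, ← sum_add_distrib]
        exact sum_congr rfl fun j _ => by rw [rem_succ C htS htA, mul_add]
      have e5 : (∑ j ∈ Act, rem C R t j) = M + ∑ j ∈ Act, rem C R (t + 1) j := by
        rw [hM, ← sum_add_distrib]
        exact sum_congr rfl fun j _ => by rw [rem_succ C htS htA]
      have er : (range (t + 1)).filter (fun j => j ∉ R) =
          insert t ((range t).filter (fun j => j ∉ R)) := by
        rw [range_add_one, filter_insert, if_pos htA]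
      have hrem := rem_self C R t
      by_cases hcase : M ≤ 1 ∧ fanoutDel C R t ≤ 1
      · -- nothing is added
        obtain ⟨hM1, hf1⟩ := hcase
        refine ⟨W, if M = 1 then insert t Act else Act, Function.update sz t (2 * B + 1 + σ),
          hW.trans (range_mono (by omega)), ?_, ?_, ?_, ?_, ?_, ?_⟩
        · split_ifs
          · rw [range_add_one]; exact insert_subset_insert _ hAct
          · exact hAct.trans (range_mono (by omega))
        · intro j hj hjA
          rcases Nat.lt_succ_iff_lt_or_eq.mp hj with h | h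
          · have hne : j ≠ t := by omega
            rw [Function.update_of_ne hne]
            have h6 : (j ∈ if M = 1 then insert t Act else Act) ↔ j ∈ Act := by
              split_ifs
              · simp [hne]
              · rfl
            simp only [h6]
            exact (h1 j h hjA).mono le_rfl (by omega) le_rfl le_rfl
          · subst h
            rw [Function.update_self]
            refine hg.mono le_rfl (by omega) ?_ le_rfl
            by_cases hM1' : M = 1
            · simp [hM1']
            · rw [if_neg hM1', if_neg htAct]; omega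
        · intro j hj hjA
          rcases Nat.lt_succ_iff_lt_or_eq.mp hj with h | h
          · rw [Function.update_of_ne (by omega)]
            have := h2 j h hjA
            omega
          · subst h
            rw [Function.update_self]
            omega
        · intro i hi
          exact (h3 i hi).mono le_rfl le_rfl le_rfl (by omega)
        · rw [er, sum_insert htA', Function.update_self]
          have h6 : (∑ j ∈ (range t).filter (fun j => j ∉ R),
              Function.update sz t (2 * B + 1 + σ) j * rem C R (t + 1) j) =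
              ∑ j ∈ (range t).filter (fun j => j ∉ R), sz j * rem C R (t + 1) j := by
            refine sum_congr rfl fun j hj => ?_
            rw [Function.update_of_ne]
            have := mem_range.mp (mem_filter.mp hj).1
            omega
          rw [h6]
          have h7 : (2 * B + 1 + σ) * rem C R (t + 1) t ≤ (2 * B + 1 + σ) * 1 :=
            Nat.mul_le_mul_left _ (hrem.trans hf1)
          omega
        · rw [er, sum_insert htA']
          by_cases hM1' : M = 1
          · rw [if_pos hM1', sum_insert htAct]
            omega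
          · rw [if_neg hM1']
            omega
      · -- the gate is added to `W`
        refine ⟨insert t W, insert t Act, Function.update sz t 0, ?_, ?_, ?_, ?_, ?_, ?_, ?_⟩
        · rw [range_add_one]; exact insert_subset_insert _ hW
        · rw [range_add_one]; exact insert_subset_insert _ hAct
        · intro j hj hjA
          rcases Nat.lt_succ_iff_lt_or_eq.mp hj with h | h
          · have hne : j ≠ t := by omega
            rw [Function.update_of_ne hne]
            have h6 : (j ∈ insert t Act) ↔ j ∈ Act := by simp [hne]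
            simp only [h6]
            exact (h1 j h hjA).mono (subset_insert _ _) (by omega) le_rfl le_rfl
          · subst h
            rw [Function.update_self, if_pos (mem_insert_self _ _)]
            exact Rep.self (mem_insert_self _ _)
        · intro j hj hjA
          rcases Nat.lt_succ_iff_lt_or_eq.mp hj with h | h
          · rw [Function.update_of_ne (by omega)]
            have := h2 j h hjA
            omega
          · subst h
            rw [Function.update_self]
            omega
        · intro i hi
          rcases mem_insert.mp hi with h | h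
          · subst h
            exact hg.mono (subset_insert _ _) le_rfl hM2 (by omega)
          · exact (h3 i h).mono (subset_insert _ _) le_rfl le_rfl (by omega)
        · rw [er, sum_insert htA', Function.update_self, zero_mul, zero_add]
          have h6 : (∑ j ∈ (range t).filter (fun j => j ∉ R),
              Function.update sz t 0 j * rem C R (t + 1) j) =
              ∑ j ∈ (range t).filter (fun j => j ∉ R), sz j * rem C R (t + 1) j := by
            refine sum_congr rfl fun j hj => ?_
            rw [Function.update_of_ne]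
            have := mem_range.mp (mem_filter.mp hj).1
            omega
          rw [h6]
          omega
        · rw [er, sum_insert htA', sum_insert htAct, card_insert_of_notMem htW]
          omega

/-! ### the assembly for one root -/

/-- the assembly -/
lemma assemble {F : ℕ → BF n} {S : ℕ} {W : Finset ℕ} (hW : W ⊆ range S) {s : ℕ} {f : BF n}
    (h3 : ∀ i ∈ W, Rep F W i 2 (F i) s) (ho : Rep F W S 2 f s)
    {δ : ℕ} (hδ : ∀ f : BF n, Sz f s → Dp f δ) {k : ℕ} (hk : 2 * (W.card + 1) < (k + 1) * 2 ^ k) :
    Dp f (δ + 64 * 2 ^ k) := by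
  classical
  set V : ℕ → BF n := fun i => if i < S then F i else f with hV
  have hconv : ∀ {t m : ℕ} {g : BF n}, Rep F W t m g s → Rep V (insert S W) t m g s := by
    intro t m g h
    obtain ⟨p, h1, h2, h3, G, h4, h5, h6⟩ := h
    refine ⟨p, h1.trans (subset_insert _ _), h2, h3, G, h4, h5, fun x => ?_⟩
    rw [h6 x, h4 (fun u => F u x) (fun u => V u x)]
    intro u hu
    simp only [hV]
    rw [if_pos (mem_range.mp (hW (h1 hu)))]
  have hS : S ∉ W := fun h => by simpa using hW h
  have key : ∀ i, ∃ (p : Finset ℕ) (G : (ℕ → Bool) → BF n), (∀ u ∈ p, u < i) ∧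
      (i ∈ insert S W → p ⊆ insert S W ∧ p.card ≤ 2 ∧
      (∀ a a' : ℕ → Bool, (∀ u ∈ p, a u = a' u) → G a = G a') ∧ (∀ a, Sz (G a) s) ∧
      ∀ x, V i x = G (fun u => V u x) x) := by
    intro i
    by_cases hi : i ∈ insert S W
    · have hr : Rep V (insert S W) i 2 (V i) s := by
        rcases mem_insert.mp hi with h | h
        · subst h
          have := hconv ho
          simpa [hV] using this
        · have h7 := hconv (h3 i h)
          have : V i = F i := by
            simp only [hV]
            rw [if_pos (mem_range.mp (hW h))]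
          rw [this]
          exact h7
      obtain ⟨p, h1, h2, h3, G, h4, h5, h6⟩ := hr
      exact ⟨p, G, h2, fun _ => ⟨h1, h3, h4, h5, h6⟩⟩
    · exact ⟨∅, fun _ _ => false, by simp, fun h => absurd h hi⟩
  choose pr G hpr hG using key
  have h := Dp.sys (W := insert S W) (pr := pr) (G := G) hpr
    (fun v hv => (hG v hv).2.2.1) (fun v hv => (hG v hv).1)
    (fun v hv a => hδ _ ((hG v hv).2.2.2.1 a)) (fun v hv => (hG v hv).2.1) V
    (fun v hv => (hG v hv).2.2.2.2) (k := k) (by rw [card_insert_of_notMem hS]; exact hk)
    (mem_insert_self _ _)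
  simpa [hV] using h

/-- **One root.** -/
lemma root (C : Circuit n) (R : Finset ℕ) (F : ℕ → BF n) (B : ℕ)
    (hR : ∀ j ∈ R, j < C.size → Sz (F j) B)
    (hF : ∀ t < C.size, t ∉ R → ∀ x, F t x = (C.gate t).eval x (fun j => F j x))
    {δ : ℕ} (hδ : ∀ f : BF n, Sz f (2 * B + 1 + 2 * ((2 * B + 1) * C.size)) → Dp f δ)
    {k : ℕ} (hk : 2 * (3 * excessDel C R + 1) < (k + 1) * 2 ^ k) :
    (∀ g : Gate n, (∀ j, g.wires j ≠ 0 → j < C.size) →
      Dp (fun x => g.eval x (fun j => F j x)) (δ + 64 * 2 ^ k)) ∧
    (∀ a : Node n, (∀ j, a.wires j ≠ 0 → j < C.size) →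
      Dp (fun x => a.eval x (fun j => F j x)) (δ + 64 * 2 ^ k)) := by
  classical
  obtain ⟨W, Act, sz, hW, hAct, h1, h2, h3, h4, h5⟩ := extract C R F B hR hF C.size le_rfl
  have hcard : W.card ≤ 3 * excessDel C R := by
    unfold excessDel
    omega
  have hk' : 2 * (W.card + 1) < (k + 1) * 2 ^ k := by omega
  have h3' : ∀ i ∈ W, Rep F W i 2 (F i) (2 * B + 1 + 2 * ((2 * B + 1) * C.size)) :=
    fun i hi => (h3 i hi).mono le_rfl le_rfl le_rfl (by omega)
  have hsz : ∀ j ∈ (range C.size).filter (fun j => j ∉ R), sz j ≤ (2 * B + 1) * C.size := by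
    intro j hj
    obtain ⟨hj1, hj2⟩ := mem_filter.mp hj
    exact h2 j (mem_range.mp hj1) hj2
  constructor
  · intro g hg
    have h6 := Rep.gate (B := B) hR h1 g hg
    exact assemble hW h3' (h6.mono le_rfl le_rfl (gate_wires_le _ _)
      (by have := wsum_gate_le g _ hsz; omega)) hδ hk'
  · intro a ha
    have h6 := Rep.node (B := B) hR h1 a ha
    exact assemble hW h3' (h6.mono le_rfl le_rfl ((node_wires_le _ _).trans (by norm_num))
      (by have := wsum_node_le a _ hsz; omega)) hδ hk'

end Pool.Agent.T9h19
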