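import Mathlib
import Pool.Agent.T9h19.Extr

/-!
# Circuits with few shared gates besides easy gates and guessed gates
-/

set_option autoImplicit false

namespace Pool.Agent.T9h19

open Finset Pool.Agent.H540R2

variable {n : ℕ}

/-- The values when the gates in `W` are overwritten by `a` and those in `A` have their true
values. -/
def valM (C : Circuit n) (W A : Finset ℕ) (a : ℕ → Bool) (x : Fin n → Bool) : ℕ → Bool
  | i => if i ∈ W then a i else if i ∈ A then C.val x i else
      (C.gate i).eval x (fun j => if _h : j < i then valM C W A a x j else false)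
termination_by i => i

variable {C : Circuit n} {W A : Finset ℕ} {a : ℕ → Bool} {x : Fin n → Bool}

lemma valM_W {i : ℕ} (hi : i ∈ W) : valM C W A a x i = a i := by
  rw [valM, if_pos hi]

lemma valM_A {i : ℕ} (hi : i ∉ W) (hA : i ∈ A) : valM C W A a x i = C.val x i := by
  rw [valM, if_neg hi, if_pos hA]

lemma valM_gate {i : ℕ} (hs : i < C.size) (hi : i ∉ W) (hA : i ∉ A) :
    valM C W A a x i = (C.gate i).eval x (valM C W A a x) := by
  rw [valM, if_neg hi, if_neg hA]
  apply Gate.eval_congr
  intro j hj
  simp [C.gate_lt i hs j hj]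

lemma valM_true (h : ∀ i ∈ W, i < C.size → a i = C.val x i) :
    ∀ i < C.size, valM C W A a x i = C.val x i := by
  intro i
  induction i using Nat.strong_induction_on with
  | _ i ih =>
    intro hs
    by_cases h1 : i ∈ W
    · rw [valM_W h1, h i h1 hs]
    · by_cases h2 : i ∈ A
      · exact valM_A h1 h2
      · rw [valM_gate hs h1 h2, C.val_gate hs]
        apply Gate.eval_congr
        intro j hj
        exact ih j (C.gate_lt i hs j hj) ((C.gate_lt i hs j hj).trans hs)

lemma valM_congr {a' : ℕ → Bool} {v : ℕ} (h : ∀ u ∈ W, u < v → a u = a' u) :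
    ∀ i < C.size, i < v → valM C W A a x i = valM C W A a' x i := by
  intro i
  induction i using Nat.strong_induction_on with
  | _ i ih =>
    intro hs hv
    by_cases h1 : i ∈ W
    · rw [valM_W h1, valM_W h1, h i h1 hv]
    · by_cases h2 : i ∈ A
      · rw [valM_A h1 h2, valM_A h1 h2]
      · rw [valM_gate hs h1 h2, valM_gate hs h1 h2]
        apply Gate.eval_congr
        intro j hj
        exact ih j (C.gate_lt i hs j hj) ((C.gate_lt i hs j hj).trans hs)
          ((C.gate_lt i hs j hj).trans hv)

/-! ### numbers -/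

lemma choose_k (κ : ℕ) : ∃ k, 2 * (3 * κ + 1) < (k + 1) * 2 ^ k ∧
    2 ^ k ≤ 24 * (κ / (Nat.log 2 κ + 1)) + 32 := by
  classical
  have hex : ∃ k, 2 * (3 * κ + 1) < (k + 1) * 2 ^ k := by
    refine ⟨2 * (3 * κ + 1), ?_⟩
    have h := Nat.lt_two_pow_self (n := 2 * (3 * κ + 1))
    have h2 : 1 ≤ 2 ^ (2 * (3 * κ + 1)) := Nat.one_le_two_pow
    nlinarith
  obtain ⟨h1, h2⟩ : 2 * (3 * κ + 1) < (Nat.find hex + 1) * 2 ^ (Nat.find hex) ∧
      ∀ m < Nat.find hex, ¬ 2 * (3 * κ + 1) < (m + 1) * 2 ^ m :=
    ⟨Nat.find_spec hex, fun m hm => Nat.find_min hex hm⟩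
  set k := Nat.find hex with hk
  refine ⟨k, h1, ?_⟩
  set L := Nat.log 2 κ with hL
  rcases Nat.eq_zero_or_pos k with h0 | h0
  · rw [h0]; omega
  · obtain ⟨j, hj⟩ : ∃ j, k = j + 1 := ⟨k - 1, by omega⟩
    have h3 := h2 j (by omega)
    push Not at h3
    -- `κ < 2 ^ (2 k)`
    have h4 : κ < 2 ^ (2 * k) := by
      have h5 : k + 1 ≤ 2 ^ k := Nat.lt_two_pow_self
      have h6 : (k + 1) * 2 ^ k ≤ 2 ^ k * 2 ^ k := Nat.mul_le_mul_right _ h5
      have h7 : 2 ^ (2 * k) = 2 ^ k * 2 ^ k := by rw [two_mul, pow_add]
      omega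
    have h5 : L < 2 * k := by
      rcases Nat.eq_zero_or_pos κ with hκ | hκ
      · rw [hL, hκ]; simp; omega
      · exact Nat.log_lt_of_lt_pow (by omega) h4
    have h6 : 2 ^ k * (L + 1) ≤ 24 * κ + 8 := by
      have h7 : 2 ^ k * (L + 1) ≤ 2 ^ k * (2 * k) := Nat.mul_le_mul_left _ (by omega)
      have h8 : 2 ^ k * (2 * k) = 4 * ((j + 1) * 2 ^ j) := by
        rw [hj, pow_succ]; ring
      omega
    have h9 : κ = (L + 1) * (κ / (L + 1)) + κ % (L + 1) := (Nat.div_add_mod κ (L + 1)).symm
    have h10 : κ % (L + 1) < L + 1 := Nat.mod_lt _ (by omega)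
    by_contra hc
    push Not at hc
    have h11 : (24 * (κ / (L + 1)) + 33) * (L + 1) ≤ 2 ^ k * (L + 1) :=
      Nat.mul_le_mul_right _ hc
    nlinarith

lemma size_bound (S l : ℕ) :
    2 * 2 ^ l + 1 + 2 * ((2 * 2 ^ l + 1) * S) < 2 ^ (l + Nat.log 2 S + 4) := by
  have h1 : S < 2 ^ (Nat.log 2 S + 1) := Nat.lt_pow_succ_log_self (by norm_num) S
  have h2 : 1 ≤ 2 ^ l := Nat.one_le_two_pow
  have h3 : 2 ^ (l + Nat.log 2 S + 4) = 8 * (2 ^ l * 2 ^ (Nat.log 2 S + 1)) := by
    rw [pow_add, pow_add, pow_succ]; ring
  rw [h3]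
  have h4 : 2 ^ l * (S + 1) ≤ 2 ^ l * 2 ^ (Nat.log 2 S + 1) := Nat.mul_le_mul_left _ h1
  nlinarith

/-- **Main theorem, formula version.** -/
theorem few (C : Circuit n) (A W : Finset ℕ) (l : ℕ)
    (hA : ∀ j ∈ A, j < C.size → Dp (fun x => C.val x j) l) :
    Dp C.eval (3 * (l + Nat.log 2 C.size + 4) +
      64 * (24 * (excessDel C (A ∪ W) / (Nat.log 2 (excessDel C (A ∪ W)) + 1)) + 32) +
      2 * (W.card + 1)) := by
  classical
  obtain ⟨k, hk1, hk2⟩ := choose_k (excessDel C (A ∪ W))
  set δ := 3 * (l + Nat.log 2 C.size + 4) with hδ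
  -- the pieces for fixed values on `W`
  have hroot := fun a : ℕ → Bool => root C (A ∪ W) (fun j x => valM C W A a x j) (2 ^ l)
    (by
      intro j hj hs
      by_cases hW : j ∈ W
      · exact (Sz.const (a j) _).congr fun x => (valM_W hW).symm
      · have hjA : j ∈ A := by
          rcases mem_union.mp hj with h | h
          · exact h
          · exact absurd h hW
        exact (Dp.sz (hA j hjA hs)).congr fun x => (valM_A hW hjA).symm)
    (by
      intro t hs ht x
      rw [mem_union, not_or] at ht
      exact valM_gate hs ht.2 ht.1)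
    (δ := δ) (fun f hf => hf.dp (size_bound C.size l)) hk1
  -- the system
  set W' := insert C.size (W.filter (fun i => i < C.size)) with hW'
  set G : ℕ → (ℕ → Bool) → BF n := fun v a x =>
    if v < C.size then (C.gate v).eval x (fun j => valM C W A a x j)
    else C.out.eval x (fun j => valM C W A a x j) with hG
  set V : ℕ → BF n := fun v => if v < C.size then (fun x => C.val x v) else C.eval with hV
  have hcl : ∀ v ∈ W', v ≤ C.size := by
    intro v hv
    rcases mem_insert.mp hv with h | h
    · exact h.le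
    · exact (mem_filter.mp h).2.le
  have main := Dp.sys_linear (W := W')
    (pr := fun v => (W.filter (fun i => i < C.size)).filter (fun i => i < v))
    (G := G) (fun v u hu => (mem_filter.mp hu).2)
    (by
      intro v hv a a' haa
      have haa' : ∀ u ∈ W, u < v → a u = a' u := by
        intro u hu huv
        exact haa u (mem_filter.mpr ⟨mem_filter.mpr ⟨hu, lt_of_lt_of_le huv (hcl v hv)⟩, huv⟩)
      funext x
      simp only [hG]
      by_cases h : v < C.size
      · rw [if_pos h, if_pos h]
        apply Gate.eval_congr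
        intro j hj
        have hjv := C.gate_lt v h j hj
        exact valM_congr haa' j (hjv.trans h) hjv
      · rw [if_neg h, if_neg h]
        apply Node.eval_congr
        intro j hj
        have hjs := C.out_lt j hj
        exact valM_congr haa' j hjs (by omega))
    (by
      intro v _
      exact (filter_subset _ _).trans (subset_insert _ _))
    (δ := δ + 64 * 2 ^ k)
    (by
      intro v _ a
      by_cases h : v < C.size
      · refine ((hroot a).1 (C.gate v) fun j hj => (C.gate_lt v h j hj).trans h).congr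
          fun x => ?_
        simp only [hG]
        rw [if_pos h]
      · refine ((hroot a).2 C.out C.out_lt).congr fun x => ?_
        simp only [hG]
        rw [if_neg h])
    V
    (by
      intro v hv x
      have htrue : ∀ i ∈ W, i < C.size → (fun u => V u x) i = C.val x i := by
        intro i _ hi
        simp only [hV]
        rw [if_pos hi]
      simp only [hG, hV]
      by_cases h : v < C.size
      · rw [if_pos h, if_pos h, C.val_gate h]
        apply Gate.eval_congr
        intro j hj
        exact (valM_true htrue j ((C.gate_lt v h j hj).trans h)).symm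
      · rw [if_neg h, if_neg h]
        apply Node.eval_congr
        intro j hj
        exact (valM_true htrue j (C.out_lt j hj)).symm)
    (t := C.size) (mem_insert_self _ _)
  have e1 : V C.size = C.eval := by
    simp only [hV]
    rw [if_neg (lt_irrefl _)]
  rw [e1] at main
  have hcard : W'.card ≤ W.card + 1 :=
    (card_insert_le _ _).trans (Nat.add_le_add_right (card_le_card (filter_subset _ _)) 1)
  refine main.mono ?_
  have := Nat.mul_le_mul_left 64 hk2
  omega

end Pool.Agent.T9h19
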